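import Pool.Agent.R816.ClosedSub

/-!
# Free Abelian topological groups

The free Abelian topological group is a topological quotient of the free topological group; this transfers the results of
`Pool.Agent.R816` (free topological groups) to the Abelian case.
-/

set_option autoImplicit false

open Topology Set
open Pool.Agent.R816.FTG (FTG)

namespace Pool.Agent.P8H81.ATG

/-- The free Abelian topological group `A(X)` in the sense of Markov, as an abstract group: the free Abelian group on the
set `X`. -/
def ATG (X : Type) : Type := FreeAbelianGroup X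

instance (X : Type) : AddCommGroup (ATG X) := inferInstanceAs (AddCommGroup (FreeAbelianGroup X))

/-- The inclusion of the generators. -/
def gen {X : Type} (x : X) : ATG X := FreeAbelianGroup.of x

/-- The topology of `A(X)`: the finest group topology on the free Abelian group on `X` for which the inclusion of the
generators is continuous. -/
instance instTop (X : Type) [TopologicalSpace X] : TopologicalSpace (ATG X) :=
  sInf {t : TopologicalSpace (ATG X) |
    @IsTopologicalAddGroup (ATG X) t _ ∧ @Continuous X (ATG X) _ t gen}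

instance (X : Type) [TopologicalSpace X] : IsTopologicalAddGroup (ATG X) :=
  topologicalAddGroup_sInf fun _ ht => ht.1

theorem continuous_gen (X : Type) [TopologicalSpace X] : Continuous (gen : X → ATG X) := by
  rw [continuous_sInf_rng]
  exact fun t ht => ht.2

/-- the homomorphism extending a map on the generators -/
def lift {X G : Type} [AddCommGroup G] (f : X → G) : ATG X →+ G := (FreeAbelianGroup.lift f : FreeAbelianGroup X →+ G)

@[simp] theorem lift_gen {X G : Type} [AddCommGroup G] (f : X → G) (x : X) : lift f (gen x) = f x :=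
  FreeAbelianGroup.lift_apply_of f x

theorem hom_ext {X G : Type} [AddCommGroup G] {φ ψ : ATG X →+ G} (h : ∀ x, φ (gen x) = ψ (gen x)) :
    φ = ψ := FreeAbelianGroup.lift_ext φ ψ h

theorem lift_continuous {X G : Type} [TopologicalSpace X] [AddCommGroup G] [TopologicalSpace G]
    [IsTopologicalAddGroup G] {f : X → G} (hf : Continuous f) : Continuous (lift f) := by
  refine continuous_sInf_dom (t := TopologicalSpace.induced (lift f) inferInstance) ⟨?_, ?_⟩
    continuous_induced_dom
  · exact topologicalAddGroup_induced (lift f)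
  · rw [continuous_induced_rng]
    have : (lift f ∘ gen) = f := funext fun x => lift_gen f x
    rw [this]
    exact hf

/-- Preimages under extensions of locally constant maps are open. -/
theorem isOpen_lift {X G : Type} [TopologicalSpace X] [AddCommGroup G] {f : X → G}
    (hf : IsLocallyConstant f) (S : Set G) : IsOpen (lift f ⁻¹' S) := by
  let _ : TopologicalSpace G := ⊥
  have : DiscreteTopology G := ⟨rfl⟩
  exact (isOpen_discrete S).preimage (lift_continuous hf.continuous)

/-- functoriality -/
def map {X Y : Type} (f : X → Y) : ATG X →+ ATG Y := lift fun x => gen (f x)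

@[simp] theorem map_gen {X Y : Type} (f : X → Y) (x : X) : map f (gen x) = gen (f x) :=
  lift_gen _ _

theorem map_continuous {X Y : Type} [TopologicalSpace X] [TopologicalSpace Y] {f : X → Y}
    (hf : Continuous f) : Continuous (map f) :=
  lift_continuous ((continuous_gen Y).comp hf)

theorem map_map {X Y Z : Type} (f : X → Y) (g : Y → Z) (w : ATG X) :
    map g (map f w) = map (fun x => g (f x)) w := by
  have : (map g).comp (map f) = map (fun x => g (f x)) := hom_ext fun x => by simp
  exact DFunLike.congr_fun this w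

section letters

/-- the set of letters -/
noncomputable def letters {X : Type} (w : ATG X) : Finset X := FreeAbelianGroup.support w

theorem mem_letters_add {X : Type} {v w : ATG X} {x : X} (hx : x ∈ letters (v + w)) : x ∈ letters v ∨ x ∈ letters w := by
  classical
  have h0 := FreeAbelianGroup.support_add (X := X) v w
  have h := h0 hx
  rw [Finset.mem_union] at h
  exact h

theorem letters_add {X : Type} [DecidableEq X] (v w : ATG X) : letters (v + w) ⊆ letters v ∪ letters w := by
  intro x hx
  rw [Finset.mem_union]
  exact mem_letters_add hx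

theorem letters_neg {X : Type} (w : ATG X) : letters (-w) = letters w := FreeAbelianGroup.support_neg w

theorem letters_gen {X : Type} (x : X) : letters (gen x) = {x} := FreeAbelianGroup.support_of x

theorem letters_zero {X : Type} : letters (0 : ATG X) = ∅ := FreeAbelianGroup.support_zero

theorem eq_sum {X : Type} (w : ATG X) : ∃ c : X → ℤ, w = ∑ x ∈ letters w, c x • gen x :=
  ⟨fun x => FreeAbelianGroup.coeff x w, FreeAbelianGroup.eq_sum_support_coeff_smul_of w⟩

theorem lift_congr {X G : Type} [AddCommGroup G] {f g : X → G} {w : ATG X}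
    (h : ∀ x ∈ letters w, f x = g x) : lift f w = lift g w := by
  obtain ⟨c, hc⟩ := eq_sum w
  have e : ∀ f : X → G, lift f w = ∑ x ∈ letters w, c x • f x := by
    intro f
    conv_lhs => rw [hc]
    rw [_root_.map_sum]
    refine Finset.sum_congr rfl fun x _ => ?_
    rw [_root_.map_zsmul, lift_gen]
  rw [e f, e g]
  exact Finset.sum_congr rfl fun x hx => by rw [h x hx]

theorem lift_gen_self {X : Type} (w : ATG X) : lift (gen : X → ATG X) w = w := by
  have : lift (gen : X → ATG X) = AddMonoidHom.id (ATG X) := hom_ext fun x => by simp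
  rw [this]
  rfl

theorem map_fix {X : Type} {c : X → X} {w : ATG X} (h : ∀ x ∈ letters w, c x = x) :
    map c w = w := by
  have h1 : map c w = lift gen w := lift_congr fun x hx => by rw [h x hx]
  rw [h1, lift_gen_self]

theorem mem_closure_of_letters {X : Type} {S : Set X} {w : ATG X} (h : ∀ x ∈ letters w, x ∈ S) :
    w ∈ AddSubgroup.closure ((gen : X → ATG X) '' S) := by
  obtain ⟨c, hc⟩ := eq_sum w
  rw [hc]
  refine sum_mem fun x hx => zsmul_mem ?_ _
  exact AddSubgroup.subset_closure ⟨x, h x hx, rfl⟩

theorem letters_of_mem_closure {X : Type} {S : Set X} {w : ATG X}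
    (hw : w ∈ AddSubgroup.closure ((gen : X → ATG X) '' S)) : ∀ x ∈ letters w, x ∈ S := by
  classical
  induction hw using AddSubgroup.closure_induction with
  | mem y hy =>
    obtain ⟨x, hx, rfl⟩ := hy
    intro z hz
    rw [letters_gen, Finset.mem_singleton] at hz
    rw [hz]
    exact hx
  | zero =>
    intro x hx
    rw [letters_zero] at hx
    exact absurd hx (Finset.notMem_empty x)
  | add u v _ _ hu hv =>
    intro x hx
    rcases mem_letters_add hx with h | h
    · exact hu x h
    · exact hv x h
  | neg u _ hu =>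
    intro x hx
    rw [letters_neg] at hx
    exact hu x hx

theorem mem_closure {X : Type} {S : Set X} {w : ATG X} :
    w ∈ AddSubgroup.closure ((gen : X → ATG X) '' S) ↔ ∀ x ∈ letters w, x ∈ S :=
  ⟨letters_of_mem_closure, mem_closure_of_letters⟩

/-- deleting a letter -/
theorem eq_of_delete {X : Type} {S : Set X} {w : ATG X} {f : X → ATG X}
    (hf : ∀ x ∈ S, f x = gen x) (hf' : ∀ x ∉ S, f x = 0) (hw : lift f w = w) :
    ∀ x ∈ letters w, x ∈ S := by
  rw [← mem_closure, ← hw]
  obtain ⟨c, hc⟩ := eq_sum w
  rw [hc, _root_.map_sum]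
  refine sum_mem fun x _ => ?_
  rw [_root_.map_zsmul, lift_gen]
  refine zsmul_mem ?_ _
  by_cases h : x ∈ S
  · rw [hf x h]
    exact AddSubgroup.subset_closure ⟨x, h, rfl⟩
  · rw [hf' x h]
    exact zero_mem _

theorem gen_injective {Y : Type} : Function.Injective (gen : Y → ATG Y) :=
  FreeAbelianGroup.of_injective

end letters

/-! ### Separation -/

section sep

variable {X : Type} [TopologicalSpace X]

theorem isOpen_map {c : X → X} (hc : IsLocallyConstant c) (S : Set (ATG X)) :
    IsOpen (map c ⁻¹' S) := by
  refine isOpen_lift (X := X) (G := ATG X) (f := fun x => gen (c x)) ?_ S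
  exact hc.comp gen

instance [TotallySeparatedSpace X] : T2Space (ATG X) := by
  refine ⟨fun v w hvw => ?_⟩
  classical
  obtain ⟨c, hc, hL⟩ := Pool.Agent.R816.FTG.exists_retract (letters v ∪ letters w)
  have hv : map c v = v := map_fix fun x hx => hL x (Finset.mem_union_left _ hx)
  have hw : map c w = w := map_fix fun x hx => hL x (Finset.mem_union_right _ hx)
  refine ⟨map c ⁻¹' {v}, map c ⁻¹' {w}, isOpen_map hc _, isOpen_map hc _, ?_, ?_, ?_⟩
  · simp [hv]
  · simp [hw]
  · rw [Set.disjoint_left]
    intro u hu hu'
    simp only [mem_preimage, mem_singleton_iff] at hu hu'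
    exact hvw (hu.symm.trans hu')

end sep

/-! ### The quotient map from the free topological group -/

/-- the canonical homomorphism, multiplicatively -/
def mpi (X : Type) : FTG X →* Multiplicative (ATG X) := Pool.Agent.R816.FTG.lift fun x => Multiplicative.ofAdd (gen x)

/-- the canonical map `F(X) → A(X)` -/
def pi {X : Type} (w : FTG X) : ATG X := (mpi X w).toAdd

theorem pi_mul {X : Type} (v w : FTG X) : pi (v * w) = pi v + pi w := by
  unfold pi
  rw [map_mul]
  rfl

theorem pi_one {X : Type} : pi (1 : FTG X) = 0 := by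
  unfold pi
  rw [map_one]
  rfl

theorem pi_inv {X : Type} (w : FTG X) : pi w⁻¹ = - pi w := by
  unfold pi
  rw [map_inv]
  rfl

theorem pi_gen {X : Type} (x : X) : pi (Pool.Agent.R816.FTG.gen x) = gen x := by
  unfold pi mpi
  rw [Pool.Agent.R816.FTG.lift_gen]
  rfl

theorem pi_surjective {X : Type} : Function.Surjective (pi : FTG X → ATG X) := by
  let S : AddSubgroup (ATG X) :=
    { carrier := range (pi : FTG X → ATG X)
      add_mem' := by
        rintro _ _ ⟨v, rfl⟩ ⟨w, rfl⟩
        exact ⟨v * w, pi_mul v w⟩
      zero_mem' := ⟨1, pi_one⟩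
      neg_mem' := by
        rintro _ ⟨v, rfl⟩
        exact ⟨v⁻¹, pi_inv v⟩ }
  intro w
  have h1 : AddSubgroup.closure ((gen : X → ATG X) '' Set.univ) ≤ S := by
    rw [AddSubgroup.closure_le]
    rintro _ ⟨x, _, rfl⟩
    exact ⟨_, pi_gen x⟩
  exact h1 (mem_closure.2 fun x _ => mem_univ x)

theorem pi_continuous {X : Type} [TopologicalSpace X] : Continuous (pi : FTG X → ATG X) := by
  have h : Continuous (mpi X) := by
    refine Pool.Agent.R816.FTG.lift_continuous ?_
    exact continuous_ofAdd.comp (continuous_gen X)
  exact continuous_toAdd.comp h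

/-- the quotient topology -/
@[instance_reducible] def tq (X : Type) [TopologicalSpace X] : TopologicalSpace (ATG X) :=
  TopologicalSpace.coinduced pi (Pool.Agent.R816.FTG.instTop X)

theorem isOpen_tq {X : Type} [TopologicalSpace X] {O : Set (ATG X)} : IsOpen[tq X] O ↔ IsOpen (pi ⁻¹' O : Set (FTG X)) :=
  Iff.rfl

theorem isOpen_image {X : Type} [TopologicalSpace X] {V : Set (FTG X)} (hV : IsOpen V) : IsOpen[tq X] (pi '' V) := by
  rw [isOpen_tq]
  have h1 : (pi ⁻¹' (pi '' V) : Set (FTG X)) = ⋃ k ∈ {k : FTG X | pi k = 0}, (fun w => k * w) ⁻¹' V := by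
    ext w
    simp only [mem_preimage, mem_image, mem_iUnion, mem_ofPred_eq, exists_prop]
    constructor
    · rintro ⟨v, hv, h⟩
      refine ⟨v * w⁻¹, ?_, ?_⟩
      · rw [pi_mul, pi_inv, h, add_neg_cancel]
      · rwa [inv_mul_cancel_right]
    · rintro ⟨k, hk, h⟩
      refine ⟨_, h, ?_⟩
      rw [pi_mul, hk, zero_add]
  rw [h1]
  refine isOpen_biUnion fun k _ => ?_
  exact hV.preimage (continuous_const_mul k)

theorem tq_group (X : Type) [TopologicalSpace X] : @IsTopologicalAddGroup (ATG X) (tq X) _ := by
  let _ : TopologicalSpace (ATG X) := tq X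
  have hm : ContinuousAdd (ATG X) := by
    refine ⟨⟨fun O hO => ?_⟩⟩
    rw [isOpen_prod_iff]
    intro a b hab
    obtain ⟨v, rfl⟩ := pi_surjective a
    obtain ⟨w, rfl⟩ := pi_surjective b
    have h1 : IsOpen ((fun p : FTG X × FTG X => p.1 * p.2) ⁻¹' (pi ⁻¹' O)) :=
      (isOpen_tq.1 hO).preimage continuous_mul
    rw [isOpen_prod_iff] at h1
    obtain ⟨V, W, hV, hW, hv, hw, hVW⟩ := h1 v w (by
      change pi (v * w) ∈ O
      rw [pi_mul]
      exact hab)
    refine ⟨pi '' V, pi '' W, isOpen_image hV, isOpen_image hW, ⟨v, hv, rfl⟩, ⟨w, hw, rfl⟩, ?_⟩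
    rintro ⟨_, _⟩ ⟨⟨v', hv', rfl⟩, ⟨w', hw', rfl⟩⟩
    have h2 : pi (v' * w') ∈ O := hVW (mk_mem_prod hv' hw')
    rw [pi_mul] at h2
    exact h2
  have hi : ContinuousNeg (ATG X) := by
    refine ⟨⟨fun O hO => ?_⟩⟩
    have h1 : IsOpen ((fun w : FTG X => w⁻¹) ⁻¹' (pi ⁻¹' O)) := (isOpen_tq.1 hO).preimage continuous_inv
    refine isOpen_tq.2 ?_
    convert h1 using 1
    ext w
    simp only [mem_preimage, pi_inv]
  exact {}

theorem tq_le (X : Type) [TopologicalSpace X] : instTop X ≤ tq X := by
  refine sInf_le ⟨tq_group X, ?_⟩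
  refine @Continuous.mk _ _ _ (tq X) _ fun O hO => ?_
  have h1 := (isOpen_tq.1 hO).preimage (Pool.Agent.R816.FTG.continuous_gen X)
  convert h1 using 1
  ext x
  simp only [mem_preimage, pi_gen]

/-- a set is open if its preimage in the free topological group is open -/
theorem isOpen_of_pi {X : Type} [TopologicalSpace X] {O : Set (ATG X)} (hO : IsOpen (pi ⁻¹' O : Set (FTG X))) : IsOpen O :=
  tq_le X O (isOpen_tq.2 hO)

theorem continuous_of_pi {X Y : Type} [TopologicalSpace X] [TopologicalSpace Y] {g : ATG X → Y}
    (hg : Continuous fun w : FTG X => g (pi w)) : Continuous g :=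
  ⟨fun O hO => isOpen_of_pi (hO.preimage hg)⟩

end Pool.Agent.P8H81.ATG
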