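import Pool.Agent.P8H81.ATG.Basic

/-!
# A closed subgroup of a free Abelian topological group which is a `k_R`-space need not be a `k_R`-space
-/

set_option autoImplicit false

open Topology Set Cardinal Filter
open Pool.Agent.R816.FTG (FTG exists_retract)
open Pool.Agent.R816.ClosedSub (IsKR X e e_iff e' e'_injective isKR_FTG isClopen_coord comp_kr)
open Pool.Agent.R816.Dep

namespace Pool.Agent.P8H81.ATG

theorem isKR_ATG : IsKR (ATG X) := by
  intro f hf
  refine continuous_of_pi ?_
  refine isKR_FTG _ fun K hK => ?_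
  have h1 : IsCompact (pi '' K : Set (ATG X)) := hK.image pi_continuous
  exact (hf _ h1).comp pi_continuous.continuousOn (mapsTo_image _ _)

/-! ### The closed subgroup -/

/-- the subgroup generated by the evaluation points -/
noncomputable def H : AddSubgroup (ATG X) := AddSubgroup.closure (gen '' (range e'))

/-- A general criterion. -/
theorem isClosed_closure {Y : Type} [TopologicalSpace Y] [TotallySeparatedSpace Y] {E : Set Y}
    (hE : ∀ x ∉ E, ∃ U : Set Y, IsClopen U ∧ x ∈ U ∧ ∀ y ∈ E, y ∉ U) :
    IsClosed (AddSubgroup.closure ((gen : Y → ATG Y) '' E) : Set (ATG Y)) := by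
  classical
  let ρ : Set Y → Y → ATG Y := fun U y => if y ∈ U then 0 else gen y
  have hρ : ∀ U, IsClopen U → Continuous (ρ U) := by
    intro U hU
    refine Continuous.if (fun y hy => ?_) continuous_const (continuous_gen Y)
    have : frontier {y | y ∈ U} = ∅ := hU.frontier_eq
    rw [this] at hy
    exact absurd hy (by simp)
  have h1 : (AddSubgroup.closure ((gen : Y → ATG Y) '' E) : Set (ATG Y)) =
      ⋂ U ∈ {U : Set Y | IsClopen U ∧ ∀ y ∈ E, y ∉ U}, {w | lift (ρ U) w = w} := by
    ext w
    simp only [mem_iInter, SetLike.mem_coe, mem_ofPred_eq]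
    constructor
    · intro hw U hU
      have h2 : AddSubgroup.closure ((gen : Y → ATG Y) '' E) ≤
          (lift (ρ U)).eqLocus (AddMonoidHom.id (ATG Y)) := by
        rw [AddSubgroup.closure_le]
        rintro _ ⟨x, hx, rfl⟩
        change lift _ (gen x) = gen x
        rw [lift_gen]
        simp [ρ, hU.2 x hx]
      exact h2 hw
    · intro h
      rw [mem_closure]
      intro x hx
      by_contra hxE
      obtain ⟨U, hU, hxU, hUE⟩ := hE x hxE
      have h3 := h U ⟨hU, hUE⟩
      have h4 := eq_of_delete (S := Uᶜ) (f := ρ U) (fun y hy => by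
          have hy' : y ∉ U := hy
          simp [ρ, hy'])
        (fun y hy => by
          have hy' : y ∈ U := not_not.1 hy
          simp [ρ, hy']) h3 x hx
      exact h4 hxU
  rw [h1]
  refine isClosed_biInter fun U hU => ?_
  exact isClosed_eq (lift_continuous (hρ U hU.1)) continuous_id

theorem isClosed_H : IsClosed (H : Set (ATG X)) := by
  refine isClosed_closure fun x hx => ?_
  have hcard : #(supp x.1) < 𝔠 := by
    rcases x.2 with h | ⟨n, hn⟩
    · exact h
    · exact absurd ⟨n, Subtype.ext hn.symm⟩ hx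
  obtain ⟨A, hA⟩ : ∃ A : Set ℕ, x.1 A = x.1 Aᶜ := by
    by_contra hcon
    push Not at hcon
    have h1 : (Set.univ : Set (Set ℕ)) ⊆ supp x.1 ∪ compl '' supp x.1 := by
      intro A _
      by_cases h : x.1 A = true
      · exact Or.inl h
      · right
        refine ⟨Aᶜ, ?_, compl_compl A⟩
        have h2 := hcon A
        have h3 : x.1 A = false := by simpa using h
        rw [h3] at h2
        exact (by simpa using h2.symm : x.1 Aᶜ = true)
    have h2 : #(Set.univ : Set (Set ℕ)) < 𝔠 := by
      refine ((Cardinal.mk_le_mk_of_subset h1).trans (Cardinal.mk_union_le _ _)).trans_lt ?_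
      exact Cardinal.add_lt_of_lt aleph0_le_continuum hcard (Cardinal.mk_image_le.trans_lt hcard)
    rw [Cardinal.mk_univ, mk_set_nat] at h2
    exact lt_irrefl _ h2
  refine ⟨{z : X | z.1 A = z.1 Aᶜ}, isClopen_coord (P := fun a b => a = b) A Aᶜ, hA, ?_⟩
  rintro _ ⟨n, rfl⟩ h
  have h1 : e n A = e n Aᶜ := h
  by_cases hn : n ∈ A
  · have h2 : e n A = true := e_iff.2 hn
    rw [h1, e_iff] at h2
    exact h2 hn
  · have h2 : e n Aᶜ = true := e_iff.2 hn
    rw [← h1, e_iff] at h2
    exact hn h2

theorem gen_mem (n : ℕ) : gen (e' n) ∈ H := AddSubgroup.subset_closure ⟨_, mem_range_self n, rfl⟩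

/-! ### The subgroup is not discrete -/

theorem exists_mem_nhds {U : Set (ATG X)} (hU : U ∈ 𝓝 (0 : ATG X)) :
    ∃ n m : ℕ, n ≠ m ∧ -gen (e' n) + gen (e' m) ∈ U := by
  have h1 : pi ⁻¹' U ∈ 𝓝 (1 : FTG X) := by
    have h2 := (pi_continuous (X := X)).continuousAt (x := 1)
    unfold ContinuousAt at h2
    rw [pi_one] at h2
    exact h2 hU
  obtain ⟨n, m, hnm, h⟩ := Pool.Agent.R816.ClosedSub.exists_mem_nhds h1
  refine ⟨n, m, hnm, ?_⟩
  rw [mem_preimage, pi_mul, pi_inv, pi_gen, pi_gen] at h
  exact h

/-! ### Compact subsets of the subgroup are finite -/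

theorem map_ne_zero {Y Z : Type} {k : Y → Z} {w : ATG Y} (hk : Set.InjOn k (letters w))
    (hw : w ≠ 0) : map k w ≠ 0 := by
  classical
  intro h
  rcases isEmpty_or_nonempty Y with hY | hY
  · refine hw ?_
    have h2 : (AddMonoidHom.id (ATG Y)) = 0 := hom_ext fun x => (hY.false x).elim
    exact DFunLike.congr_fun h2 w
  · have h1 : map (fun y => Function.invFunOn k (letters w) (k y)) w = w :=
      map_fix fun x hx => hk.leftInvOn_invFunOn hx
    rw [← map_map, h, _root_.map_zero] at h1
    exact hw h1.symm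

/-- the number of letters of the image of a word of length `n` -/
theorem card_letters_q {M : Type} [TopologicalSpace M] (n : ℕ) (u : Fin n → Pool.Agent.R816.FTG.Lam M) :
    (letters (pi (Pool.Agent.R816.FTG.q n u))).card ≤ n := by
  classical
  induction n with
  | zero =>
    have h : Pool.Agent.R816.FTG.q 0 u = 1 := by simp [Pool.Agent.R816.FTG.q]
    rw [h, pi_one, letters_zero]
    simp
  | succ n ih =>
    rw [Pool.Agent.R816.FTG.q_succ, pi_mul]
    refine (Finset.card_le_card (letters_add _ _)).trans ((Finset.card_union_le _ _).trans ?_)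
    have h1 : ∀ a : Pool.Agent.R816.FTG.Lam M, (letters (pi (Pool.Agent.R816.FTG.lam a))).card ≤ 1 := by
      rintro ((a | a) | a)
      · change (letters (pi (Pool.Agent.R816.FTG.gen a))).card ≤ 1
        rw [pi_gen, letters_gen, Finset.card_singleton]
      · change (letters (pi (Pool.Agent.R816.FTG.gen a)⁻¹)).card ≤ 1
        rw [pi_inv, letters_neg, pi_gen, letters_gen, Finset.card_singleton]
      · change (letters (pi (1 : FTG M))).card ≤ 1
        rw [pi_one, letters_zero]
        simp
    have h2 := h1 (u 0)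
    have h3 := ih fun i => u i.succ
    omega

/-- Compact subsets consist of elements with a bounded number of letters. -/
theorem bounded_of_isCompact {M : Type} [TopologicalSpace M] [CompactSpace M] [T2Space M] [TotallySeparatedSpace M]
    {K : Set (ATG M)} (hK : IsCompact K) : ∃ n, ∀ w ∈ K, (letters w).card ≤ n := by
  by_contra hcon
  push Not at hcon
  have h1 : ∀ n, ∃ w ∈ K, ∀ u, w ≠ pi (Pool.Agent.R816.FTG.q n u : FTG M) := by
    intro n
    obtain ⟨w, hw, h⟩ := hcon n
    refine ⟨w, hw, ?_⟩
    rintro u rfl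
    exact absurd (card_letters_q n u) (not_le.2 h)
  choose w hwK hw using h1
  let T : ℕ → Set (ATG M) := fun n => {x | ∃ m, n ≤ m ∧ x = w m}
  have hT : ∀ n, IsClosed (T n) := by
    intro n
    rw [← isOpen_compl_iff]
    refine isOpen_of_pi ?_
    refine Pool.Agent.R816.FTG.isOpen_of_q fun m => ?_
    rw [preimage_compl, preimage_compl, isOpen_compl_iff]
    have h2 : (Pool.Agent.R816.FTG.q m ⁻¹' (pi ⁻¹' (T n)) : Set (Fin m → Pool.Agent.R816.FTG.Lam M)) =
        (fun u => pi (Pool.Agent.R816.FTG.q m u)) ⁻¹' ((fun i => w i) '' {i | i ≤ m ∧ n ≤ i}) := by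
      ext u
      simp only [T, mem_preimage, mem_ofPred_eq, mem_image]
      constructor
      · rintro ⟨i, hi, h⟩
        refine ⟨i, ⟨?_, hi⟩, h.symm⟩
        by_contra hc
        obtain ⟨v, hv⟩ := Pool.Agent.R816.FTG.range_mono (M := M) (not_le.1 hc).le ⟨u, rfl⟩
        refine hw i v ?_
        rw [hv]
        exact h.symm
      · rintro ⟨i, ⟨_, hi⟩, h⟩
        exact ⟨i, hi, h.symm⟩
    rw [h2]
    refine IsClosed.preimage (pi_continuous.comp (Pool.Agent.R816.FTG.q_continuous m)) (Set.Finite.isClosed ?_)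
    exact ((Set.finite_Iic m).subset fun i hi => hi.1).image _
  obtain ⟨x, hx⟩ := IsCompact.nonempty_iInter_of_sequence_nonempty_isCompact_isClosed T
    (fun n => by
      rintro x ⟨m, hm, rfl⟩
      exact ⟨m, (Nat.le_succ n).trans hm, rfl⟩)
    (fun n => ⟨w n, n, le_rfl, rfl⟩)
    (hK.of_isClosed_subset (hT 0) (by
      rintro x ⟨m, _, rfl⟩
      exact hwK m))
    hT
  obtain ⟨v, hv⟩ := pi_surjective x
  obtain ⟨N, u, hu⟩ := Pool.Agent.R816.FTG.q_surj v
  obtain ⟨m, hm, h3⟩ := mem_iInter.1 hx N
  obtain ⟨u', hu'⟩ := Pool.Agent.R816.FTG.range_mono (M := M) hm ⟨u, rfl⟩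
  refine hw m u' ?_
  rw [hu', hu, hv]
  exact h3.symm

theorem letters_map {Y Z : Type} [DecidableEq Z] (f : Y → Z) (w : ATG Y) : letters (map f w) ⊆ (letters w).image f := by
  have h5 : map f w ∈ AddSubgroup.closure ((gen : Z → ATG Z) '' ((letters w).image f : Finset Z)) := by
    obtain ⟨c, hc⟩ := eq_sum w
    have h6 : map f w = ∑ x ∈ letters w, c x • gen (f x) := by
      conv_lhs => rw [hc]
      rw [_root_.map_sum]
      refine Finset.sum_congr rfl fun x _ => ?_
      rw [_root_.map_zsmul, map_gen]
    rw [h6]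
    refine AddSubgroup.sum_mem _ fun x hx => ?_
    refine AddSubgroup.zsmul_mem _ ?_ _
    refine AddSubgroup.subset_closure ⟨_, ?_, rfl⟩
    exact Finset.mem_coe.2 (Finset.mem_image_of_mem _ hx)
  intro x hx
  exact Finset.mem_coe.1 (mem_closure.1 h5 x hx)

theorem finite_of_isCompact {K : Set (ATG X)} (hK : IsCompact K) (hKH : K ⊆ H) : K.Finite := by
  classical
  by_contra hinf
  -- the numbers of letters are bounded
  have hlen : ∃ N, ∀ w ∈ K, (letters w).card ≤ N := by
    have h1 : IsCompact (map (Subtype.val : X → Set ℕ → Bool) '' K) :=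
      hK.image (map_continuous continuous_subtype_val)
    obtain ⟨N, hN⟩ := bounded_of_isCompact h1
    refine ⟨N, fun w hw => ?_⟩
    have h2 := hN _ (mem_image_of_mem _ hw)
    refine le_trans ?_ h2
    have h3 : map (Function.invFun (Subtype.val : X → Set ℕ → Bool))
        (map (Subtype.val : X → Set ℕ → Bool) w) = w := by
      rw [map_map]
      exact map_fix fun x _ => Function.leftInverse_invFun Subtype.val_injective x
    have h4 : letters w ⊆ (letters (map (Subtype.val : X → Set ℕ → Bool) w)).image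
        (Function.invFun (Subtype.val : X → Set ℕ → Bool)) := by
      have h5 := letters_map (Function.invFun (Subtype.val : X → Set ℕ → Bool))
        (map (Subtype.val : X → Set ℕ → Bool) w)
      rw [h3] at h5
      exact h5
    exact (Finset.card_le_card h4).trans Finset.card_image_le
  obtain ⟨N, hN⟩ := hlen
  -- the subgroup is countable
  have hHc : (H : Set (ATG X)).Countable := by
    have h1 : H ≤ (map e').range := by
      unfold H
      rw [AddSubgroup.closure_le]
      rintro _ ⟨_, ⟨n, rfl⟩, rfl⟩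
      exact ⟨gen n, map_gen e' n⟩
    have h2 : Countable (FTG ℕ) := by
      refine Function.Surjective.countable (f := fun L : List (ℕ × Bool) =>
        (FreeGroup.mk L : FTG ℕ)) ?_
      intro w
      exact ⟨_, Pool.Agent.R816.FTG.mk_word w⟩
    have h3 : Countable (ATG ℕ) := (pi_surjective (X := ℕ)).countable
    refine (Set.countable_range (map e')).mono ?_
    intro w hw
    exact h1 hw
  obtain ⟨w, hw, s, hs, hlim⟩ := Pool.Agent.R816.Comb.exists_seq hK (hHc.mono hKH) hinf
  let u : ℕ → ATG X := fun k => -w + s k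
  have hu1 : ∀ k, u k ≠ 0 := by
    intro k h
    exact (hs k).2 (neg_add_eq_zero.1 h).symm
  have huH : ∀ k, u k ∈ H := fun k => add_mem (neg_mem (hKH hw)) (hKH (hs k).1)
  have hulen : ∀ k, (letters (u k)).card ≤ N + N := by
    intro k
    refine (Finset.card_le_card (letters_add _ _)).trans ((Finset.card_union_le _ _).trans ?_)
    refine add_le_add ?_ (hN _ (hs k).1)
    rw [letters_neg]
    exact hN _ hw
  have hulim : Tendsto u atTop (𝓝 0) := by
    have h1 : Tendsto u atTop (𝓝 (-w + w)) := hlim.const_add (-w)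
    rwa [neg_add_cancel] at h1
  let idx : X → ℕ := Function.invFun e'
  have hidx : ∀ n, idx (e' n) = n := Function.leftInverse_invFun e'_injective
  let L : ℕ → Finset ℕ := fun k => (letters (u k)).image idx
  obtain ⟨φ, hφ, Q, κ, hκQ, hκ⟩ := Pool.Agent.R816.Comb.exists_coloring (N + N) L (fun k =>
    Finset.card_image_le.trans (hulen k))
  -- the colouring of the space
  let kk : X → (Fin Q → Bool) := fun x t => x.1 {n | κ n = t}
  have hkk : IsLocallyConstant kk := by
    rw [IsLocallyConstant.iff_continuous]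
    exact continuous_pi fun t => (continuous_apply _).comp continuous_subtype_val
  have hopen : IsOpen (map kk ⁻¹' {0}) := by
    refine isOpen_lift (G := ATG (Fin Q → Bool)) (f := fun x => gen (kk x)) ?_ {0}
    exact hkk.comp gen
  have hev : ∀ᶠ k in atTop, map kk (u k) = 0 :=
    hulim (hopen.mem_nhds (by simp))
  obtain ⟨k0, hk0⟩ := eventually_atTop.1 hev
  have h1 := hk0 (φ k0) (hφ.id_le k0)
  refine map_ne_zero ?_ (hu1 (φ k0)) h1
  have hE : ∀ x ∈ letters (u (φ k0)), ∃ n, x = e' n := by
    intro x hx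
    obtain ⟨n, hn⟩ := mem_closure.1 (huH (φ k0)) x hx
    exact ⟨n, hn.symm⟩
  intro x hx y hy hxy
  obtain ⟨n, rfl⟩ := hE x hx
  obtain ⟨m, rfl⟩ := hE y hy
  have hnL : n ∈ L (φ k0) := by
    have := Finset.mem_image_of_mem idx hx
    rwa [hidx] at this
  have hmL : m ∈ L (φ k0) := by
    have := Finset.mem_image_of_mem idx hy
    rwa [hidx] at this
  have h2 : κ n = κ m := by
    have h3 := congrFun hxy ⟨κ n, hκQ n⟩
    have h4 : e n {a | κ a = κ n} = true := e_iff.2 rfl
    have h5 : e m {a | κ a = κ n} = true := by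
      rw [← h4]
      exact h3.symm
    exact (e_iff.1 h5 : κ m = κ n).symm
  rw [hκ k0 hnL hmL h2]

theorem not_isKR_H : ¬ IsKR H := by
  classical
  intro h
  have h1 : Continuous (fun x : H => if x = 0 then (1 : ℝ) else 0) := by
    refine h _ fun K hK => ?_
    have h2 : K.Finite := by
      have h3 : (Subtype.val '' K : Set (ATG X)).Finite := by
        refine finite_of_isCompact (hK.image continuous_subtype_val) ?_
        rintro _ ⟨x, _, rfl⟩
        exact x.2
      exact h3.of_finite_image Subtype.val_injective.injOn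
    exact h2.continuousOn _
  have h2 : IsOpen ({0} : Set H) := by
    have h3 := (isOpen_lt (continuous_const (y := (1 / 2 : ℝ))) h1)
    convert h3 using 1
    ext x
    simp only [mem_singleton_iff, mem_ofPred_eq]
    constructor
    · intro hx
      rw [if_pos hx]
      norm_num
    · intro hx
      by_contra hne
      rw [if_neg hne] at hx
      norm_num at hx
  obtain ⟨U, hU, hUH⟩ := isOpen_induced_iff.1 h2
  have h3 : (0 : ATG X) ∈ U := by
    have h4 : (0 : H) ∈ (Subtype.val ⁻¹' U : Set H) := by
      rw [hUH]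
      rfl
    exact h4
  obtain ⟨n, m, hnm, hmem⟩ := exists_mem_nhds (hU.mem_nhds h3)
  have h5 : -gen (e' n) + gen (e' m) ∈ H := add_mem (neg_mem (gen_mem n)) (gen_mem m)
  have h6 : (⟨_, h5⟩ : H) ∈ (Subtype.val ⁻¹' U : Set H) := hmem
  rw [hUH, mem_singleton_iff] at h6
  have h7 : -gen (e' n) + gen (e' m) = 0 := congrArg Subtype.val h6
  exact hnm (e'_injective (gen_injective (neg_add_eq_zero.1 h7)))

end Pool.Agent.P8H81.ATG
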